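import Pool.Agent.U222.LG.Defs
import Pool.Agent.U173.DN.Defs

/-!
# Log varieties and the denominators of slopes: definitions
-/

set_option autoImplicit false

open Finset TensorProduct

namespace Pool.Agent.U173.LD

open Pool.Agent.U222.LG Pool.Agent.U222.CR.Pub Pool.Agent.U173.PT Pool.Agent.U173.DN

section Spaces

variable {K : Type} [Field K] [CharZero K] {A : Type} [AddCommGroup A] [Module K A] {Γ : Type}

/-- The part of slope `s` of the space `A`: the sum of the generalised eigenspaces of `F` for the
numbers `τ x` with slope `s`. -/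
noncomputable def slopePart (v : Place Γ) (F : Module.End K A) (τ : AlgebraicClosure ℚ →+* K) (s : ℚ) :
    Submodule K A :=
  ⨆ (x : AlgebraicClosure ℚ) (_ : IsSlope v x s), F.maxGenEigenspace (τ x)

/-- The known properties of the Frobenius `F` on the cohomology `A` of degree `k` of a smooth projective
variety over the residue field of `v`: the eigenvalues are algebraic and have rational slopes; the
multiplicity of a slope is divisible by the denominator of the slope, and the slopes `s` and `k - s`
have the same multiplicity. -/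
structure IsNewton (v : Place Γ) (k : ℕ) (F : Module.End K A) : Prop where
  algebraic : ∀ α : K, F.HasEigenvalue α → IsIntegral ℚ α ∧
    ∀ (τ : AlgebraicClosure ℚ →+* K) (x : AlgebraicClosure ℚ), τ x = α → ∃ s : ℚ, IsSlope v x s
  multiple : ∀ (τ : AlgebraicClosure ℚ →+* K) (s : ℚ),
    s.den ∣ Module.finrank K (slopePart v F τ s)
  symmetric : ∀ (τ : AlgebraicClosure ℚ →+* K) (s : ℚ),
    Module.finrank K (slopePart v F τ (k - s)) = Module.finrank K (slopePart v F τ s)

/-- `β` is an eigenvalue of the Frobenius on the cohomology `B`, in some degree `k`, of a smooth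
projective variety over the residue field of `v` (only the properties `IsNewton` are used), the
dimension of `B` is less than `2 R`, and `R > 2`. -/
def IsSmall (v : Place Γ) (R : ℕ) (β : K) : Prop :=
  2 < R ∧ ∃ (k : ℕ) (B : Type) (_ : AddCommGroup B) (_ : Module K B) (F : Module.End K B),
    Module.Finite K B ∧ Module.finrank K B < 2 * R ∧ IsNewton v k F ∧ F.HasEigenvalue β

/-- Every eigenvalue of the Frobenius `F` at `v` is the product of a power of `q = p ^ m` and of numbers
which have slopes with denominators not divisible by `R`, or which are small. -/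
def Avoids (v : Place Γ) (R : ℕ) (F : Module.End K A) : Prop :=
  ∀ α : K, F.HasEigenvalue α → ∃ (n : ℤ) (y : List K), α = ((v.p : K) ^ v.m) ^ n * y.prod ∧
    ∀ β ∈ y, AvoidsDenominator v R β ∨ IsSmall v R β

/-- The number `α` is, up to a root of unity, a rational power of `p`. -/
def IsSupersingular (v : Place Γ) (α : K) : Prop :=
  ∃ (N : ℕ) (b : ℤ), 0 < N ∧ α ^ N = (v.p : K) ^ b

variable [Group Γ]

/-- `W` is stable under the Galois group and complementary to the span of the classes `e k` (it is the
common kernel of the dual linear forms `l k`); for `v` in `P` the eigenvalues on `W` of the Frobenius at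
`v` are supersingular or have for some embedding of the algebraic numbers a slope with a denominator
divisible by `R v`; and no stable subspace of `W` different from zero is supersingular at all `v` in
`P`. -/
structure IsPart (P : Set (Place Γ)) (R : Place Γ → ℕ) (ρ : Γ →* Module.End K A) {I : Type}
    [Fintype I] (e : I → A) (l : I → A →ₗ[K] K) (W : Submodule K A) : Prop where
  stable : ∀ γ, ∀ x ∈ W, ρ γ x ∈ W
  coordinate : ∀ k, ∀ x ∈ W, l k x = 0
  mem : ∀ x, remainder e l x ∈ W
  denominator : ∀ v ∈ P, ∀ (α : K), ∀ x ∈ W, x ≠ 0 → ρ v.σ x = α • x →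
    IsSupersingular v α ∨ HasDenominator v (R v) α
  minimal : ∀ U ≤ W, (∀ γ, ∀ x ∈ U, ρ γ x ∈ U) →
    (∀ v ∈ P, ∀ (α : K), ∀ x ∈ U, x ≠ 0 → ρ v.σ x = α • x → IsSupersingular v α) → U = ⊥

end Spaces

variable {K 𝒱 Γ : Type} {H : 𝒱 → Type} [Field K] [CharZero K] [Mul 𝒱] [Group Γ]
  [∀ X, AddCommGroup (H X)] [∀ X, Module K (H X)]

/-- `X` is smooth projective, without log structure; its cohomology is the direct sum of the lines of
the classes `e k` of algebraic cycles of codimension `codim k` (the codimension zero occurs), whose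
coordinates `l k` are given by algebraic cycles, and of a part as in `IsPart`. -/
structure IsFactor (T : LogCohomology K H Γ) (P : Set (Place Γ)) (R : Place Γ → ℕ) (X : 𝒱) {I : Type}
    [Fintype I] [DecidableEq I] (codim : I → ℕ) (e : I → H X) (l : I → H X →ₗ[K] K) : Prop where
  unit : ∃ k, codim k = 0
  cycle : ∀ k, e k ∈ T.chern X (codim k)
  algebraic : ∀ k, T.IsAlgebraic (l k) (codim k)
  dual : IsDual e l
  part : ∃ W : Submodule K (H X), IsPart P R (T.act X) e l W

/-- The `X i` are smooth projective varieties as in `IsFactor`, for sets `P i` of places and prime powers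
`R i v`, `v ∈ P i`, and the other `X j` and the log scheme `Z` avoid the denominator `R i v` at `v`;
`χ` is the inverse of the cyclotomic character. -/
structure IsDenominatorSystem (T : LogCohomology K H Γ) (χ : Γ →* Kˣ) {ι : Type}
    (P : ι → Set (Place Γ)) (R : ι → Place Γ → ℕ) (X : ι → 𝒱) (Z : 𝒱) {I : ι → Type}
    [∀ i, Fintype (I i)] [∀ i, DecidableEq (I i)] (codim : ∀ i, I i → ℕ)
    (e : ∀ i, I i → H (X i)) (l : ∀ i, I i → H (X i) →ₗ[K] K) : Prop where
  factor : ∀ i, IsFactor T (P i) (R i) (X i) (codim i) (e i) (l i)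
  pos : ∀ i, ∀ v ∈ P i, 0 < v.m
  character : ∀ i, ∀ v ∈ P i, ((χ v.σ : Kˣ) : K) = (v.p : K) ^ v.m
  prime : ∀ i, ∀ v ∈ P i, IsPrimePow (R i v)
  others : ∀ i j, i ≠ j → ∀ v ∈ P i, Avoids v (R i v) (T.act (X j) v.σ)
  base : ∀ i, ∀ v ∈ P i, Avoids v (R i v) (T.act Z v.σ)

end Pool.Agent.U173.LD
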