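import Pool.Agent.U222.LG.Main
import Pool.Agent.U173.GS.Lin
import Pool.Agent.N179.FG.Lin
import Pool.Agent.U173.DN.Num
import Pool.Agent.U173.LD.Defs

/-!
# The log Tate conjecture for products with varieties with separated denominators
-/

set_option autoImplicit false
set_option linter.unusedSectionVars false

open Finset TensorProduct Module

namespace Pool.Agent.U173.LD

open Pool.Agent.U222.LG Pool.Agent.U222.CR.Pub Pool.Agent.U173.PT Pool.Agent.U173.DN

section Spaces

variable {K : Type} [Field K] [CharZero K] {A : Type} [AddCommGroup A] [Module K A]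
  [FiniteDimensional K A] {Γ : Type} {v : Place Γ}

theorem slopePart_disjoint (hm : 0 < v.m) (F : Module.End K A) (τ : AlgebraicClosure ℚ →+* K)
    {s t : ℚ} (hst : s ≠ t) : Disjoint (slopePart v F τ s) (slopePart v F τ t) := by
  have h1 : iSupIndep fun x : AlgebraicClosure ℚ => F.maxGenEigenspace (τ x) :=
    (Module.End.independent_maxGenEigenspace F).comp τ.injective
  have h2 : Disjoint {x | IsSlope v x s} {x | IsSlope v x t} :=
    Set.disjoint_left.2 fun x hx hx' => hst (IsSlope.unique hm hx hx')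
  exact h1.disjoint_biSup_biSup h2

/-- small numbers avoid the denominator -/
theorem IsSmall.avoids (hm : 0 < v.m) {R : ℕ} {β : K} (h : IsSmall v R β) :
    AvoidsDenominator v R β := by
  obtain ⟨hR, k, B, iB, iM, F, hfin, hdim, hN, hβ⟩ := h
  refine ⟨(hN.algebraic β hβ).1, fun τ x hx => ?_⟩
  obtain ⟨s, hs⟩ := (hN.algebraic β hβ).2 τ x hx
  refine ⟨s, hs, fun hRs => ?_⟩
  obtain ⟨t, ht, ht0⟩ := hβ.exists_hasEigenvector
  have hle : t ∈ slopePart v F τ s := by
    refine (le_iSup₂_of_le (f := fun (x : AlgebraicClosure ℚ) (_ : IsSlope v x s) =>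
      F.maxGenEigenspace (τ x)) x hs le_rfl) ?_
    rw [Module.End.mem_maxGenEigenspace]
    refine ⟨1, ?_⟩
    rw [pow_one, hx]
    change F t - β • t = 0
    rw [Module.End.mem_eigenspace_iff.1 ht, sub_self]
  have h1 : 0 < finrank K (slopePart v F τ s) := by
    rw [Module.finrank_pos_iff]
    exact ⟨⟨⟨t, hle⟩, 0, fun h => ht0 (congrArg Subtype.val h)⟩⟩
  have h2 : s.den ≤ finrank K (slopePart v F τ s) := Nat.le_of_dvd h1 (hN.multiple τ s)
  have h3 : R ≤ s.den := Nat.le_of_dvd s.den_pos hRs
  have hne : s ≠ (k : ℚ) - s := by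
    intro h
    have h4 : s = ((k : ℤ) : ℚ) / ((2 : ℤ) : ℚ) := by
      push_cast
      linarith
    have h5 : ((s.den : ℕ) : ℤ) ∣ 2 := by
      rw [h4, ← Rat.divInt_eq_div]
      exact Rat.den_dvd _ _
    have h6 : s.den ∣ 2 := by exact_mod_cast h5
    have h7 := Nat.le_of_dvd (by norm_num) (hRs.trans h6)
    omega
  have h4 := slopePart_disjoint hm F τ hne
  have h5 := Submodule.finrank_sup_add_finrank_inf_eq (slopePart v F τ s)
    (slopePart v F τ ((k : ℚ) - s))
  rw [h4.eq_bot, finrank_bot, add_zero, hN.symmetric τ s] at h5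
  have h6 : finrank K ↥(slopePart v F τ s ⊔ slopePart v F τ ((k : ℚ) - s)) ≤ finrank K B :=
    Submodule.finrank_le _
  omega

/-- the eigenvalues avoid the denominator -/
theorem Avoids.eigenvalue (hm : 0 < v.m) {R : ℕ} (hR : IsPrimePow R) {F : Module.End K A}
    (h : Avoids v R F) {α : K} (hα : F.HasEigenvalue α) : AvoidsDenominator v R α := by
  obtain ⟨n, y, rfl, hy⟩ := h α hα
  refine (avoids_q hR v n).mul hR (avoids_prod hR y fun β hβ => ?_)
  rcases hy β hβ with h | h
  · exact h
  · exact h.avoids hm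

end Spaces

variable {K 𝒱 Γ : Type} {H : 𝒱 → Type} [Field K] [CharZero K] [Mul 𝒱] [Group Γ]
  [∀ X, AddCommGroup (H X)] [∀ X, Module K (H X)] {T : LogCohomology K H Γ} {χ : Γ →* Kˣ}

section factor

variable {P : Set (Place Γ)} {R : Place Γ → ℕ} {X : 𝒱} {I : Type} [Fintype I] [DecidableEq I]
  {codim : I → ℕ} {e : I → H X} {l : I → H X →ₗ[K] K}

theorem l_act (hT : T.IsStandard χ) (h : IsFactor T P R X codim e l) (k : I) (γ : Γ) (x : H X) :
    l k (T.act X γ x) = ((χ γ : Kˣ) : K) ^ codim k * l k x := by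
  obtain ⟨W, hW⟩ := h.part
  have h1 : x = ∑ k, l k x • e k + remainder e l x := by
    unfold remainder
    abel
  have h2 : T.act X γ x = ∑ k, (l k x * ((χ γ : Kˣ) : K) ^ codim k) • e k +
      T.act X γ (remainder e l x) := by
    conv_lhs => rw [h1]
    rw [map_add, map_sum]
    congr 1
    refine sum_congr rfl fun k _ => ?_
    rw [map_smul, (hT.chern X _ (h.cycle k)).2 γ, smul_smul]
  rw [h2, map_add, hW.coordinate k _ (hW.stable γ _ (hW.mem x)), add_zero, map_sum,
    sum_eq_single k]
  · rw [map_smul, h.dual k k, if_pos rfl, smul_eq_mul, mul_one, mul_comm]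
  · intro k' _ hk
    rw [map_smul, h.dual k k', if_neg (Ne.symm hk), smul_zero]
  · intro hk
    exact absurd (mem_univ k) hk

theorem slant_act (hT : T.IsStandard χ) (h : IsFactor T P R X codim e l) (k : I) (γ : Γ) (Y : 𝒱)
    (z : H (X * Y)) : slant (T.kunneth X Y) (l k) (T.act (X * Y) γ z) =
      ((χ γ : Kˣ) : K) ^ codim k • T.act Y γ (slant (T.kunneth X Y) (l k) z) := by
  induction z using Pool.Agent.U222.SM.cross_ind (T.kunneth X Y) with
  | h0 => simp only [map_zero, Pool.Agent.U222.SM.slant_zero, smul_zero]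
  | ha x y hx hy => simp only [map_add, Pool.Agent.U222.SM.slant_add, smul_add, hx, hy]
  | hc x y =>
    rw [hT.cross, Pool.Agent.U222.SM.slant_cross, Pool.Agent.U222.SM.slant_cross, l_act hT h,
      map_smul, smul_smul]

/-- the slant product of an invariant class -/
theorem slant_inv (hT : T.IsStandard χ) (h : IsFactor T P R X codim e l) (k : I) {Y : 𝒱} {m r : ℕ}
    {z : H (X * Y)} (hz : z ∈ T.invariants χ (X * Y) m r) :
    (2 * codim k ≤ m → codim k ≤ r →
      slant (T.kunneth X Y) (l k) z ∈ T.invariants χ Y (m - 2 * codim k) (r - codim k)) ∧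
      (¬(2 * codim k ≤ m ∧ codim k ≤ r) → slant (T.kunneth X Y) (l k) z = 0) := by
  have h1 := Pool.Agent.U222.SM.slant_deg (toC_std hT) (h.algebraic k).1 hz.1
  have h2 := fun γ => slant_act hT h k γ Y z
  have h5 : ∀ γ, ((χ γ : Kˣ) : K) ^ codim k ≠ 0 := fun γ => pow_ne_zero _ (Units.ne_zero _)
  have h6 : ∀ γ, ((χ γ : Kˣ) : K) ^ r • slant (T.kunneth X Y) (l k) z =
      ((χ γ : Kˣ) : K) ^ codim k • T.act Y γ (slant (T.kunneth X Y) (l k) z) := by
    intro γ
    have h3 := h2 γ
    rw [hz.2 γ, Pool.Agent.U222.SM.slant_smul] at h3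
    exact h3
  refine ⟨fun hm hk => ⟨h1.1 hm, fun γ => ?_⟩, fun hk => ?_⟩
  · refine smul_right_injective _ (h5 γ) ?_
    show ((χ γ : Kˣ) : K) ^ codim k • _ = ((χ γ : Kˣ) : K) ^ codim k • _
    rw [← h6, smul_smul, ← pow_add, Nat.add_sub_cancel' hk]
  · rcases Nat.lt_or_ge m (2 * codim k) with h | h
    · exact h1.2 h
    · have hk' : r < codim k := by
        by_contra hr
        exact hk ⟨h, by omega⟩
      refine hT.integral Y (codim k - r) (by omega) _ fun γ => ?_
      have h7 : ((χ γ : Kˣ) : K) ^ r ≠ 0 := pow_ne_zero _ (Units.ne_zero _)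
      refine smul_right_injective _ h7 ?_
      show ((χ γ : Kˣ) : K) ^ r • _ = ((χ γ : Kˣ) : K) ^ r • _
      rw [smul_smul, ← pow_add, Nat.add_sub_cancel' hk'.le, ← h6]

/-- coordinates of classes in the span of the `e k` -/
theorem eq_sum (h : IsDual e l) {x : H X} (hx : x ∈ Submodule.span K (Set.range e)) :
    x = ∑ k, l k x • e k := by
  induction hx using Submodule.span_induction with
  | mem y hy =>
    obtain ⟨k, rfl⟩ := hy
    rw [sum_eq_single k]
    · rw [h k k, if_pos rfl, one_smul]
    · intro k' _ hk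
      rw [h k' k, if_neg hk, zero_smul]
    · intro hk
      exact absurd (mem_univ k) hk
  | zero => simp
  | add x y _ _ hx hy =>
    conv_lhs => rw [hx, hy]
    rw [← sum_add_distrib]
    exact sum_congr rfl fun k _ => by rw [map_add, add_smul]
  | smul a x _ hx =>
    conv_lhs => rw [hx]
    rw [smul_sum]
    exact sum_congr rfl fun k _ => by rw [map_smul, smul_smul, smul_eq_mul]

theorem isCompl (h : IsDual e l) {W : Submodule K (H X)} (hc : ∀ k, ∀ x ∈ W, l k x = 0)
    (hm : ∀ x, remainder e l x ∈ W) : IsCompl (Submodule.span K (Set.range e)) W := by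
  constructor
  · rw [Submodule.disjoint_def]
    intro x hx hx'
    rw [eq_sum h hx]
    exact sum_eq_zero fun k _ => by rw [hc k x hx', zero_smul]
  · rw [codisjoint_iff, eq_top_iff]
    intro x _
    refine Submodule.mem_sup.2 ⟨∑ k, l k x • e k, Submodule.sum_mem _ fun k _ =>
      Submodule.smul_mem _ _ (Submodule.subset_span ⟨k, rfl⟩), remainder e l x, hm x, ?_⟩
    unfold remainder
    abel

/-- the components of a class with coordinates in the span of the `e k` -/
theorem eq_sum_cross (h : IsDual e l) {Y : 𝒱} (k : H X ⊗[K] H Y ≃ₗ[K] H (X * Y)) {x : H (X * Y)}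
    (hx : k.symm x ∈ LinearMap.range ((Submodule.span K (Set.range e)).subtype.rTensor (H Y))) :
    x = ∑ i, cross k (e i) (slant k (l i) x) := by
  obtain ⟨u, hu⟩ := hx
  have h1 : x = k ((Submodule.span K (Set.range e)).subtype.rTensor (H Y) u) := by
    rw [hu, LinearEquiv.apply_symm_apply]
  rw [h1]
  clear h1 hu
  induction u using TensorProduct.induction_on with
  | zero => simp [Pool.Agent.U222.SM.slant_zero, Pool.Agent.U222.SM.cross_zero]
  | add a b ha hb =>
    rw [map_add, map_add]
    conv_lhs => rw [ha, hb]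
    rw [← sum_add_distrib]
    exact sum_congr rfl fun i _ => by
      rw [Pool.Agent.U222.SM.slant_add, Pool.Agent.U222.SM.cross_add]
  | tmul a b =>
    rw [LinearMap.rTensor_tmul]
    change cross k (a : H X) b = ∑ i, cross k (e i) (slant k (l i) (cross k (a : H X) b))
    have h2 : ∀ i, cross k (e i) (slant k (l i) (cross k (a : H X) b)) =
        cross k (l i (a : H X) • e i) b := by
      intro i
      rw [Pool.Agent.U222.SM.slant_cross, Pool.Agent.U222.SM.cross_smul,
        Pool.Agent.U222.SM.smul_cross]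
    rw [sum_congr rfl fun i _ => h2 i]
    conv_lhs => rw [eq_sum h a.2]
    unfold cross
    rw [sum_tmul, map_sum]

end factor

section eigen

variable [IsAlgClosed K] [∀ X, FiniteDimensional K (H X)]

/-- the action on a product -/
theorem act_kunneth (hT : T.IsStandard χ) (X Y : 𝒱) (γ : Γ) (u : H X ⊗[K] H Y) :
    T.act (X * Y) γ (T.kunneth X Y u) =
      T.kunneth X Y (TensorProduct.map (T.act X γ) (T.act Y γ) u) := by
  induction u using TensorProduct.induction_on with
  | zero => simp
  | tmul x y => exact hT.cross X Y γ x y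
  | add x y hx hy => rw [map_add, map_add, hx, hy, map_add, map_add]

theorem act_injective (T : LogCohomology K H Γ) (X : 𝒱) (γ : Γ) :
    Function.Injective (T.act X γ) := by
  intro x y hxy
  have h : ∀ z, T.act X γ⁻¹ (T.act X γ z) = z := fun z => by
    rw [← Module.End.mul_apply, ← map_mul, inv_mul_cancel, map_one, Module.End.one_apply]
  rw [← h x, hxy, h]

/-- the eigenvalues on the products of two objects -/
theorem eig_two (hT : T.IsStandard χ) {X Y : 𝒱} {γ : Γ} {ν : K}
    (hν : (T.act (X * Y) γ).HasEigenvalue ν) :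
    ∃ μ μ', (T.act X γ).HasEigenvalue μ ∧ (T.act Y γ).HasEigenvalue μ' ∧ ν = μ * μ' := by
  obtain ⟨x, hx, hx0⟩ := hν.exists_hasEigenvector
  have hx1 : T.act (X * Y) γ x = ν • x := Module.End.mem_eigenspace_iff.1 hx
  have h3 : Module.End.HasEigenvalue (TensorProduct.map (T.act X γ) (T.act Y γ) :
      Module.End K (H X ⊗[K] H Y)) ν := by
    refine Module.End.hasEigenvalue_of_hasEigenvector (x := (T.kunneth X Y).symm x)
      ⟨Module.End.mem_eigenspace_iff.2 ?_, fun h => hx0 ?_⟩
    · apply (T.kunneth X Y).injective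
      rw [← act_kunneth hT, LinearEquiv.apply_symm_apply, hx1, map_smul,
        LinearEquiv.apply_symm_apply]
    · rw [← (T.kunneth X Y).apply_symm_apply x, h, map_zero]
  exact Pool.Agent.N179.FG.eig_tensor (act_injective T X γ) h3

/-- the eigenvalues on products avoid the denominator -/
theorem avoids_productOf (hT : T.IsStandard χ) {ι : Type} {X : ι → 𝒱} {Z : 𝒱} {v : Place Γ}
    (hm : 0 < v.m) {R : ℕ} (hR : IsPrimePow R) {L : List ι}
    (hX : ∀ j ∈ L, Avoids v R (T.act (X j) v.σ)) (hZ : Avoids v R (T.act Z v.σ)) {β : K}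
    (hβ : (T.act (productOf X Z L) v.σ).HasEigenvalue β) : AvoidsDenominator v R β := by
  induction L generalizing β with
  | nil => exact hZ.eigenvalue hm hR hβ
  | cons i L ih =>
    obtain ⟨μ, μ', h1, h2, rfl⟩ := eig_two hT hβ
    exact ((hX i List.mem_cons_self).eigenvalue hm hR h1).mul hR
      (ih (fun j hj => hX j (List.mem_cons_of_mem _ hj)) h2)

end eigen

section main

variable [IsAlgClosed K] [∀ X, FiniteDimensional K (H X)] {ι : Type} {P : ι → Set (Place Γ)}
  {R : ι → Place Γ → ℕ} {X : ι → 𝒱} {Z : 𝒱} {I : ι → Type} [∀ i, Fintype (I i)]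
  [∀ i, DecidableEq (I i)] {codim : ∀ i, I i → ℕ} {e : ∀ i, I i → H (X i)}
  {l : ∀ i, I i → H (X i) →ₗ[K] K}

/-- the components of an invariant class -/
theorem comp (hT : T.IsStandard χ) (h : IsDenominatorSystem T χ P R X Z codim e l) {i : ι}
    {L : List ι} (hL : (i :: L).Nodup) {r : ℕ} {x : H (X i * productOf X Z L)}
    (hx : ∀ γ, T.act _ γ x = ((χ γ : Kˣ) : K) ^ r • x) :
    x = ∑ k, cross (T.kunneth (X i) (productOf X Z L)) (e i k)
      (slant (T.kunneth (X i) (productOf X Z L)) (l i k) x) := by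
  have hi := h.factor i
  obtain ⟨W, hW⟩ := hi.part
  refine eq_sum_cross hi.dual _ ?_
  set Y := productOf X Z L with hY
  refine Pool.Agent.U173.GS.semi (isCompl hi.dual hW.coordinate hW.mem) (G := Γ)
    (fun g => T.act (X i) g) (fun g => T.act Y g) (fun g => ((χ g : Kˣ) : K) ^ r)
    (fun g => act_injective T _ g) (fun g => act_injective T _ g) ?_ hW.stable ?_ ?_
  · intro g x hx
    induction hx using Submodule.span_induction with
    | mem y hy =>
      obtain ⟨k, rfl⟩ := hy
      show T.act (X i) g (e i k) ∈ _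
      rw [(hT.chern _ _ (hi.cycle k)).2 g]
      exact Submodule.smul_mem _ _ (Submodule.subset_span ⟨k, rfl⟩)
    | zero =>
      show T.act (X i) g 0 ∈ _
      rw [map_zero]
      exact Submodule.zero_mem _
    | add y z _ _ hy hz =>
      show T.act (X i) g (y + z) ∈ _
      rw [map_add]
      exact Submodule.add_mem _ hy hz
    | smul a y _ hy =>
      show T.act (X i) g (a • y) ∈ _
      rw [map_smul]
      exact Submodule.smul_mem _ _ hy
  · intro g
    apply (T.kunneth (X i) Y).injective
    rw [← act_kunneth hT, LinearEquiv.apply_symm_apply, hx g, map_smul,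
      LinearEquiv.apply_symm_apply]
  · intro U hUW hU0 hUs
    by_contra hno
    apply hU0
    refine hW.minimal U hUW hUs fun v hv α t ht ht0 hα => ?_
    by_contra hss
    apply hno
    refine ⟨v.σ, α, t, ht, ht0, hα, fun β hβ heq => ?_⟩
    rcases hW.denominator v hv α t (hUW ht) ht0 hα with h1 | h1
    · exact hss h1
    · have hav : AvoidsDenominator v (R i v) β := by
        refine avoids_productOf hT (h.pos i v hv) (h.prime i v hv) (fun j hj => ?_)
          (h.base i v hv) hβ
        refine h.others i j ?_ v hv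
        rintro rfl
        exact (List.nodup_cons.1 hL).1 hj
      refine no_resonance (h.pos i v hv) h1 hav (n := 1) (j := r) one_pos ?_
      rw [pow_one, one_mul, heq, h.character i v hv]

/-- slant products in codimension zero keep the degrees -/
theorem slant_degree (hT : T.IsStandard χ) (h : IsDenominatorSystem T χ P R X Z codim e l) (i : ι)
    (k : I i) (Y : 𝒱) (n : ℕ) (z : H (X i * Y)) (hk : codim i k = 0) (hz : z ∈ T.gr (X i * Y) n) :
    slant (T.kunneth (X i) Y) (l i k) z ∈ T.gr Y n := by
  have h1 := (Pool.Agent.U222.SM.slant_deg (toC_std hT) ((h.factor i).algebraic k).1 hz).1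
    (by omega)
  rwa [hk, mul_zero, Nat.sub_zero] at h1

/-- **The factors are good.** -/
theorem good (hT : T.IsStandard χ) (h : IsDenominatorSystem T χ P R X Z codim e l) :
    Good T χ X Z codim e l :=
  ⟨hT, fun i => (h.factor i).unit, fun i => (h.factor i).cycle, fun i k => by
      rw [(h.factor i).dual k k, if_pos rfl],
    fun i k Y w hk z hz => ((h.factor i).algebraic k).2 Y w hk z hz,
    fun i k γ Y z => slant_act hT (h.factor i) k γ Y z,
    fun i k Y m r z hz => slant_inv hT (h.factor i) k hz,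
    fun i L hL m r x hx => comp hT h hL hx.2⟩

end main

end Pool.Agent.U173.LD
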